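import Mathlib

/-!
# MP_dff590_al, Q2: a free group with positive twisted conjugacy ratio

On the free group `F` on `a, b` (a non-abelian right-angled Artin group, also a non-elementary
hyperbolic group) let `φ(a) = a⁴`, `φ(b) = b⁴`.  Two different elements whose reduced words end in
`ab` are never `φ`-conjugate, and these elements have positive density in the balls.
-/

set_option autoImplicit false

namespace Pool.Agent.Results.MP_dff590_al.PositiveTwistedRatio

open FreeGroup hiding map_mul map_inv map_one norm
open Filter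

section Defs
variable {G : Type} [Group G]

/-- The ball of radius `n` about the identity in the word metric of `X`: the products of at most
`n` elements of `X ∪ X⁻¹`. -/
def ball (X : Set G) (n : ℕ) : Set G :=
  {g | ∃ l : List G, l.length ≤ n ∧ (∀ x ∈ l, x ∈ X ∨ x⁻¹ ∈ X) ∧ l.prod = g}

/-- The equivalence relation of `φ`-conjugacy: `x = z y φ(z)⁻¹` for some `z`. -/
def twConj (φ : G →* G) : Setoid G where
  r x y := ∃ z, x = z * y * (φ z)⁻¹
  iseqv :=
    { refl := fun x => ⟨1, by simp⟩
      symm := by
        rintro x y ⟨z, rfl⟩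
        exact ⟨z⁻¹, by rw [map_inv]; group⟩
      trans := by
        rintro x y w ⟨z, rfl⟩ ⟨z', rfl⟩
        exact ⟨z * z', by rw [map_mul]; group⟩ }

/-- The set of `φ`-conjugacy classes that have a representative in the ball of radius `n`. -/
def classes (X : Set G) (φ : G →* G) (n : ℕ) : Set (Quotient (twConj φ)) :=
  (Quotient.mk (twConj φ)) '' ball X n

/-- The twisted conjugacy ratio of `φ`. -/
noncomputable def tcr (X : Set G) (φ : G →* G) : ℝ :=
  limsup (fun n : ℕ => ((classes X φ n).ncard : ℝ) / ((ball X n).ncard : ℝ)) atTop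

end Defs

/-- The free group on two generators. -/
abbrev F : Type := FreeGroup (Fin 2)

/-- letters -/
abbrev Lt : Type := Fin 2 × Bool

/-- `a ↦ a⁴`, `b ↦ b⁴` -/
def φ : F →* F := FreeGroup.lift (fun i => (FreeGroup.of i) ^ 4)

/-- four copies of each letter -/
def quad : List Lt → List Lt
  | [] => []
  | x :: L => x :: x :: x :: x :: quad L

theorem quad_length (L : List Lt) : (quad L).length = 4 * L.length := by
  induction L with
  | nil => rfl
  | cons x L ih => simp only [quad, List.length_cons, ih]; ring

theorem mk_cons (x : Lt) (L : List Lt) : (mk (x :: L) : F) = mk [x] * mk L := by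
  rw [mul_mk]; rfl

theorem φ_mk (L : List Lt) : φ (mk L) = mk (quad L) := by
  induction L with
  | nil => exact map_one φ
  | cons x L ih =>
    rw [mk_cons, map_mul, ih]
    have h : φ (mk [x]) = mk [x, x, x, x] := by
      obtain ⟨i, b⟩ := x
      cases b
      · have h1 : (mk [(i, false)] : F) = (of i)⁻¹ := rfl
        rw [h1, map_inv]
        have h2 : φ (of i) = of i ^ 4 := by simp [φ]
        rw [h2]
        rfl
      · have h1 : (mk [(i, true)] : F) = of i := rfl
        rw [h1]
        have h2 : φ (of i) = of i ^ 4 := by simp [φ]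
        rw [h2]
        rfl
    rw [h, mul_mk]
    rfl

theorem quad_reduced : ∀ L : List Lt, IsReduced L → IsReduced (quad L)
  | [], _ => IsReduced.nil
  | [x], _ => by simp [quad, isReduced_cons_cons]
  | x :: y :: L, h => by
    rw [isReduced_cons_cons] at h
    have ih := quad_reduced (y :: L) h.2
    simp only [quad, isReduced_cons_cons] at ih ⊢
    simp only [implies_true, true_and] at ih ⊢
    exact ⟨h.1, ih⟩

theorem left_reduced {L M : List Lt} (h : IsReduced (L ++ M)) : IsReduced L :=
  (List.isChain_append.1 h).1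

theorem norm_mk {L : List Lt} (h : IsReduced L) : FreeGroup.norm (mk L) = L.length := by
  unfold FreeGroup.norm
  rw [toWord_mk, h.reduce_eq]

/-- the letter `a` -/
abbrev la : Lt := (0, true)
/-- the letter `b` -/
abbrev lb : Lt := (1, true)

/-- Elements whose reduced word ends in `ab`. -/
def EndsAB (y : F) : Prop := ∃ L : List Lt, y.toWord = L ++ [la, lb]

theorem norm_mul_φ {y z : F} (hy : EndsAB y) (hz : z ≠ 1) :
    FreeGroup.norm y + 4 * FreeGroup.norm z ≤ FreeGroup.norm (y * φ z) + 2 := by
  obtain ⟨L, hL⟩ := hy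
  have hr : IsReduced (L ++ [la, lb]) := hL ▸ isReduced_toWord
  have hzr : IsReduced z.toWord := isReduced_toWord
  have hny : FreeGroup.norm y = L.length + 2 := by
    unfold FreeGroup.norm
    rw [hL]; simp
  have hyz : y * φ z = mk (L ++ [la, lb] ++ quad z.toWord) := by
    conv_lhs => rw [← mk_toWord (x := y), ← mk_toWord (x := z), φ_mk, mul_mk, hL]
  have hnz : FreeGroup.norm z = z.toWord.length := rfl
  rcases hw : z.toWord with _ | ⟨c, M⟩
  · exact absurd (toWord_eq_nil_iff.1 hw) hz
  rw [hw] at hzr hyz hnz
  have hq : IsReduced (quad (c :: M)) := quad_reduced _ hzr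
  by_cases hc : c = (1, false)
  · subst hc
    have h1 : (mk (L ++ [la, lb] ++ quad ((1, false) :: M)) : F) =
        mk (L ++ [la] ++ ((1, false) :: (1, false) :: (1, false) :: quad M)) := by
      apply Quot.sound
      have h2 := @Red.Step.not (Fin 2) (L ++ [la]) ((1, false) :: (1, false) :: (1, false) :: quad M)
        1 true
      simpa [quad] using h2
    have h3 : IsReduced (L ++ [la] ++ ((1, false) :: (1, false) :: (1, false) :: quad M)) := by
      apply IsReduced.append_overlap
      · apply left_reduced (M := [lb])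
        have : L ++ [la] ++ [lb] = L ++ [la, lb] := by simp
        rw [this]; exact hr
      · rw [List.singleton_append, isReduced_cons_cons]
        refine ⟨by simp, ?_⟩
        simp only [quad, isReduced_cons_cons] at hq ⊢
        exact hq.2
      · simp
    rw [hyz, h1, norm_mk h3, hny, hnz]
    simp only [List.length_append, List.length_cons, List.length_nil, quad_length]
    omega
  · have h3 : IsReduced (L ++ [la, lb] ++ quad (c :: M)) := by
      have h4 : L ++ [la, lb] ++ quad (c :: M) = (L ++ [la]) ++ [lb] ++ quad (c :: M) := by simp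
      rw [h4]
      apply IsReduced.append_overlap
      · have : L ++ [la] ++ [lb] = L ++ [la, lb] := by simp
        rw [this]; exact hr
      · simp only [quad, List.singleton_append] at hq ⊢
        rw [isReduced_cons_cons]
        refine ⟨?_, hq⟩
        obtain ⟨i, e⟩ := c
        intro hi
        cases e
        · have hi2 : 1 = i := hi
          exact absurd (by rw [← hi2]) hc
        · rfl
      · simp
    rw [hyz, norm_mk h3, hny, hnz]
    simp only [List.length_append, List.length_cons, List.length_nil, quad_length]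
    omega

theorem norm_lt {y z : F} (hy : EndsAB y) (hz : z ≠ 1) : FreeGroup.norm y < FreeGroup.norm (z * y * (φ z)⁻¹) := by
  have h1 := norm_mul_φ hy (inv_ne_one.2 hz)
  rw [norm_inv_eq] at h1
  have h2 : y * φ z⁻¹ = z⁻¹ * (z * y * (φ z)⁻¹) := by rw [map_inv]; group
  have h3 := norm_mul_le z⁻¹ (z * y * (φ z)⁻¹)
  rw [← h2, norm_inv_eq] at h3
  have h4 : FreeGroup.norm z ≠ 0 := fun h => hz (norm_eq_zero.1 h)
  omega

theorem eq_of_conj {x y : F} (hx : EndsAB x) (hy : EndsAB y)
    (h : (twConj φ).r x y) : x = y := by
  obtain ⟨z, hz⟩ := h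
  by_cases h1 : z = 1
  · rw [hz, h1]; simp
  · exfalso
    have h2 := norm_lt hy h1
    rw [← hz] at h2
    have h3 := norm_lt hx (inv_ne_one.2 h1)
    have h4 : z⁻¹ * x * (φ z⁻¹)⁻¹ = y := by rw [hz, map_inv]; group
    rw [h4] at h3
    omega

/-- generating set -/
abbrev X : Set F := Set.range FreeGroup.of

theorem ball_eq (n : ℕ) : ball X n = {x : F | FreeGroup.norm x ≤ n} := by
  ext x
  constructor
  · rintro ⟨l, hl, hl2, rfl⟩
    refine le_trans ?_ hl
    clear hl
    induction l with
    | nil => simp
    | cons y l ih =>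
      rw [List.prod_cons, List.length_cons]
      have h1 := norm_mul_le y l.prod
      have h2 := ih (fun x hx => hl2 x (List.mem_cons_of_mem _ hx))
      have h3 : FreeGroup.norm y = 1 := by
        rcases hl2 y List.mem_cons_self with ⟨i, hi⟩ | ⟨i, hi⟩
        · rw [← hi, norm_of]
        · rw [← norm_inv_eq, ← hi, norm_of]
      omega
  · intro hx
    refine ⟨x.toWord.map (fun c => cond c.2 (of c.1) (of c.1)⁻¹), ?_, ?_, ?_⟩
    · rw [List.length_map]; exact hx
    · intro y hy
      rw [List.mem_map] at hy
      obtain ⟨⟨i, e⟩, -, rfl⟩ := hy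
      cases e
      · right; exact ⟨i, (inv_inv _).symm⟩
      · left; exact ⟨i, rfl⟩
    · have h1 : FreeGroup.lift (FreeGroup.of) (mk x.toWord) = x := by
        rw [lift_of_apply, mk_toWord]
      rw [FreeGroup.lift_mk] at h1
      exact h1

theorem ball_finite (n : ℕ) : (ball X n).Finite := by
  rw [ball_eq]
  have h := List.finite_length_le Lt n
  exact Set.Finite.of_finite_image (f := FreeGroup.toWord)
    (h.subset (by rintro _ ⟨x, hx, rfl⟩; exact hx)) (toWord_injective.injOn)

/-- The elements of the ball whose reduced word ends in `ab`. -/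
def S (n : ℕ) : Set F := {x | x ∈ ball X n ∧ EndsAB x}

theorem S_le_classes (n : ℕ) : (S n).ncard ≤ (classes X φ n).ncard := by
  have h : Set.InjOn (Quotient.mk (twConj φ)) (S n) := by
    intro x hx y hy hxy
    exact eq_of_conj hx.2 hy.2 (Quotient.exact hxy)
  rw [← h.ncard_image]
  exact Set.ncard_le_ncard (Set.image_mono (fun x hx => hx.1)) ((ball_finite n).image _)

theorem cover (n : ℕ) (hn : 3 ≤ n) {y : F} (hy : y ∈ ball X n) :
    ∃ s ∈ S n, ∃ r ∈ ball X 6, s * r = y := by
  rw [ball_eq] at hy
  have hy' : y.toWord.length ≤ n := hy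
  set P := y.toWord.take (n - 3) with hP
  set R := y.toWord.drop (n - 3) with hR
  have hyPR : y = mk P * mk R := by
    rw [mul_mk, hP, hR, List.take_append_drop, mk_toWord]
  have hPr : IsReduced P := by
    have : IsReduced y.toWord := isReduced_toWord
    apply left_reduced (M := R)
    rw [hP, hR, List.take_append_drop]
    exact this
  have hPl : P.length ≤ n - 3 := by rw [hP, List.length_take]; omega
  have hRl : FreeGroup.norm (mk R : F) ≤ 3 := by
    refine norm_mk_le.trans ?_
    rw [hR, List.length_drop]; omega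
  have key : ∀ T : List Lt, T.length ≤ 3 → IsReduced (P ++ T) → (∃ L, P ++ T = L ++ [la, lb]) →
      ∃ s ∈ S n, ∃ r ∈ ball X 6, s * r = y := by
    intro T hT hT2 hT3
    refine ⟨mk (P ++ T), ⟨?_, ?_⟩, (mk T)⁻¹ * mk R, ?_, ?_⟩
    · rw [ball_eq]
      change FreeGroup.norm _ ≤ n
      rw [norm_mk hT2, List.length_append]; omega
    · obtain ⟨L, hL⟩ := hT3
      exact ⟨L, by rw [toWord_mk, hT2.reduce_eq, hL]⟩
    · rw [ball_eq]
      have h1 := norm_mul_le (mk T : F)⁻¹ (mk R)
      rw [norm_inv_eq] at h1
      have h2 : FreeGroup.norm (mk T : F) ≤ T.length := norm_mk_le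
      change FreeGroup.norm _ ≤ 6
      omega
    · rw [← mul_mk, hyPR]; group
  rcases List.eq_nil_or_concat P with h0 | ⟨P', c, hc⟩
  · apply key [la, lb] (by simp)
    · rw [h0]; simp [isReduced_cons_cons]
    · exact ⟨P, rfl⟩
  · by_cases h1 : c = (0, false)
    · apply key [lb, la, lb] (by simp)
      · rw [hc, h1, List.concat_eq_append]
        apply IsReduced.append_overlap
        · rw [hc, h1, List.concat_eq_append] at hPr; exact hPr
        · simp [isReduced_cons_cons]
        · simp
      · exact ⟨P ++ [lb], by simp⟩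
    · apply key [la, lb] (by simp)
      · rw [hc, List.concat_eq_append]
        apply IsReduced.append_overlap
        · rw [hc, List.concat_eq_append] at hPr; exact hPr
        · rw [List.singleton_append, isReduced_cons_cons]
          refine ⟨?_, by simp [isReduced_cons_cons]⟩
          obtain ⟨i, e⟩ := c
          intro hi
          cases e
          · have hi2 : i = 0 := hi
            exact absurd (by rw [hi2]) h1
          · rfl
        · simp
      · exact ⟨P, rfl⟩

theorem card_ball_le (n : ℕ) (hn : 3 ≤ n) :
    (ball X n).ncard ≤ (S n).ncard * (ball X 6).ncard := by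
  rw [← Set.ncard_prod]
  have hfin : (S n ×ˢ ball X 6).Finite :=
    ((ball_finite n).subset (fun x hx => hx.1)).prod (ball_finite 6)
  refine le_trans ?_ (Set.ncard_image_le (f := fun p : F × F => p.1 * p.2) hfin)
  apply Set.ncard_le_ncard _ (hfin.image _)
  intro y hy
  obtain ⟨s, hs, r, hr, h⟩ := cover n hn hy
  exact ⟨(s, r), ⟨hs, hr⟩, h⟩

theorem one_mem_ball (n : ℕ) : (1 : F) ∈ ball X n := ⟨[], by simp, by simp, by simp⟩

theorem ball_pos (n : ℕ) : 0 < (ball X n).ncard :=
  (Set.ncard_pos (ball_finite n)).2 ⟨1, one_mem_ball n⟩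

/-- **Negative answer to Q2.**  On the free group on `a, b` with the generating set `{a, b}` there
is an endomorphism with positive twisted conjugacy ratio. -/
theorem result : ∃ φ : FreeGroup (Fin 2) →* FreeGroup (Fin 2),
    0 < tcr (Set.range FreeGroup.of) φ := by
  refine ⟨φ, ?_⟩
  have hK : (0 : ℝ) < ((ball X 6).ncard : ℝ) := by exact_mod_cast ball_pos 6
  have h1 : ∀ n : ℕ, 3 ≤ n → 1 / ((ball X 6).ncard : ℝ) ≤
      ((classes X φ n).ncard : ℝ) / ((ball X n).ncard : ℝ) := by
    intro n hn
    have h2 : (0 : ℝ) < ((ball X n).ncard : ℝ) := by exact_mod_cast ball_pos n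
    rw [div_le_div_iff₀ hK h2, one_mul]
    have h3 := card_ball_le n hn
    have h4 := Nat.mul_le_mul_right (ball X 6).ncard (S_le_classes n)
    exact_mod_cast h3.trans h4
  have hb : ∀ n : ℕ, ((classes X φ n).ncard : ℝ) / ((ball X n).ncard : ℝ) ≤ 1 := by
    intro n
    have h2 : (0 : ℝ) < ((ball X n).ncard : ℝ) := by exact_mod_cast ball_pos n
    rw [div_le_one h2]
    exact_mod_cast Set.ncard_image_le (ball_finite n)
  have h5 : 1 / ((ball X 6).ncard : ℝ) ≤ tcr X φ := by
    unfold tcr
    apply le_limsup_of_frequently_le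
    · exact (eventually_atTop.2 ⟨3, h1⟩).frequently
    · exact isBoundedUnder_of ⟨1, hb⟩
  exact lt_of_lt_of_le (by positivity) h5

end Pool.Agent.Results.MP_dff590_al.PositiveTwistedRatio
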